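import Mathlib

set_option autoImplicit false

/-!
# The part `α ≥ (1 + √5) / 2` of the set `G`

For `α ≥ φ = (1 + √5) / 2` the sequence `a_n = ⌊t α ^ n⌋` satisfies `a_{n + 2} ≥ a_{n + 1} + a_n`. We
show that then it is complete only for the obvious reason: every term is at most `1` plus the sum of
all the smaller terms. If this fails for `a_n`, with `S` the sum of the smaller terms, then the numbers
`m_0 = S + 1`, `m_1 = a_n - 1`, `m_{k + 2} = m_k + a_{n + k + 1}` are no sums of distinct terms, since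
`m_k + m_{k + 1}` is the sum of all the terms up to `a_{n + k}` and `m_k < a_{n + k}`.

For `φ ≤ α < 2` only the terms with `(2 - α) a_n ≤ α` have to be checked, so that the part
`α ≥ φ` of `G` is determined by finitely many conditions for each `(t, α)`.
-/

namespace Pool.Agent.Results.MP_0ff3a5_nt.AboveGoldenRatio

open Finset Real

/-- The set of the values `⌊t α^n⌋`, `n ≥ 0`. -/
def seqSet (t α : ℝ) : Set ℤ := {m | ∃ n : ℕ, m = ⌊t * α ^ n⌋}

/-- Every large integer is a sum of distinct elements of `A`. -/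
def Complete (A : Set ℤ) : Prop :=
  ∃ N : ℤ, ∀ m ≥ N, ∃ F : Finset ℤ, (F : Set ℤ) ⊆ A ∧ ∑ a ∈ F, a = m

/-- The set `G` of the problem. -/
def G : Set (ℝ × ℝ) := {p | 0 < p.1 ∧ 0 < p.2 ∧ Complete (seqSet p.1 p.2)}

/-- The sum of the distinct values among `⌊t α^0⌋, …, ⌊t α^(n-1)⌋`. -/
noncomputable def partialSum (t α : ℝ) (n : ℕ) : ℤ :=
  ∑ a ∈ (range n).image (fun i : ℕ => ⌊t * α ^ i⌋), a

section

variable {t α : ℝ}

/-- the terms -/
noncomputable def A (t α : ℝ) (n : ℕ) : ℤ := ⌊t * α ^ n⌋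

/-- the set of the first `n` terms -/
noncomputable def I (t α : ℝ) (n : ℕ) : Finset ℤ := (range n).image (A t α)

theorem I_succ (n : ℕ) : I t α (n + 1) = insert (A t α n) (I t α n) := by
  unfold I
  rw [range_add_one, image_insert]

theorem pS_eq (n : ℕ) : partialSum t α n = ∑ a ∈ I t α n, a := rfl

theorem A_nonneg (ht : 0 < t) (hα : 0 < α) (n : ℕ) : 0 ≤ A t α n := Int.floor_nonneg.2 (by positivity)

theorem A_mono (ht : 0 < t) (hα : 1 ≤ α) : Monotone (A t α) := by
  intro i j hij
  apply Int.floor_le_floor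
  exact mul_le_mul_of_nonneg_left (pow_le_pow_right₀ hα hij) ht.le

theorem A_add (ht : 0 < t) (hα : 0 < α) (h2 : α + 1 ≤ α ^ 2) (n : ℕ) :
    A t α (n + 1) + A t α n ≤ A t α (n + 2) := by
  unfold A
  rw [Int.le_floor]
  push_cast
  have h1 := Int.floor_le (t * α ^ (n + 1))
  have h3 := Int.floor_le (t * α ^ n)
  have h4 : t * α ^ (n + 1) + t * α ^ n ≤ t * α ^ (n + 2) := by
    have : t * α ^ n * (α + 1) ≤ t * α ^ n * α ^ 2 :=
      mul_le_mul_of_nonneg_left h2 (by positivity)
    calc _ = t * α ^ n * (α + 1) := by ring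
      _ ≤ _ := this
      _ = _ := by ring
  linarith

theorem A_lt (ht : 0 < t) (hα : 3 / 2 ≤ α) {n : ℕ} (h : 2 ≤ A t α n) : A t α n < A t α (n + 1) := by
  have h1 := Int.floor_le (t * α ^ n)
  have h2 : (2 : ℝ) ≤ (A t α n : ℝ) := by exact_mod_cast h
  have h3 : A t α n + 1 ≤ A t α (n + 1) := by
    conv_rhs => unfold A
    rw [Int.le_floor]
    push_cast
    have h4 : (A t α n : ℝ) ≤ t * α ^ n := h1
    rw [pow_succ]
    nlinarith
  omega

theorem I_nonneg (ht : 0 < t) (hα : 0 < α) (n : ℕ) : ∀ a ∈ I t α n, 0 ≤ a := by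
  intro a ha
  obtain ⟨i, _, rfl⟩ := mem_image.1 ha
  exact A_nonneg ht hα i

theorem A_unbounded (ht : 0 < t) (hα : 1 < α) (M : ℤ) : ∃ n, M < A t α n := by
  obtain ⟨n, hn⟩ := pow_unbounded_of_one_lt (((M : ℝ) + 1) / t) hα
  refine ⟨n, ?_⟩
  rw [div_lt_iff₀ ht] at hn
  have : M + 1 ≤ A t α n := by
    unfold A
    rw [Int.le_floor]
    push_cast
    linarith
  omega

/-- sums of distinct terms which are smaller than `a_n` only use the first `n` terms -/
theorem subset_I (ht : 0 < t) (hα : 1 ≤ α) {n : ℕ} {F : Finset ℤ} (hF : (F : Set ℤ) ⊆ seqSet t α)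
    (h : ∑ a ∈ F, a < A t α n) : F ⊆ I t α n := by
  intro a ha
  obtain ⟨i, hi⟩ := hF ha
  have hnn : ∀ b ∈ F, 0 ≤ b := by
    intro b hb
    obtain ⟨j, hj⟩ := hF hb
    rw [hj]
    exact A_nonneg ht (by linarith) j
  have h1 : a ≤ ∑ a ∈ F, a := single_le_sum (f := fun a => a) hnn ha
  rw [I, mem_image]
  refine ⟨i, ?_, hi.symm⟩
  rw [mem_range]
  by_contra hcon
  push Not at hcon
  have h2 : A t α n ≤ A t α i := A_mono ht hα hcon
  have h3 : a = A t α i := hi
  omega

/-- Brown's criterion -/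
theorem represent (ht : 0 < t) (hα : 0 < α) (hB : ∀ n, A t α n ≤ 1 + partialSum t α n) (n : ℕ) :
    ∀ m, 0 ≤ m → m ≤ partialSum t α n → ∃ F : Finset ℤ, F ⊆ I t α n ∧ ∑ a ∈ F, a = m := by
  induction n with
  | zero =>
    intro m h1 h2
    have : partialSum t α 0 = 0 := by simp [partialSum]
    exact ⟨∅, by simp, by rw [sum_empty]; omega⟩
  | succ n ih =>
    intro m h1 h2
    by_cases hmem : A t α n ∈ I t α n
    · have h3 : I t α (n + 1) = I t α n := by rw [I_succ, insert_eq_of_mem hmem]
      rw [h3]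
      rw [pS_eq, h3, ← pS_eq] at h2
      exact ih m h1 h2
    · rw [pS_eq, I_succ, sum_insert hmem, ← pS_eq] at h2
      by_cases h4 : m ≤ partialSum t α n
      · obtain ⟨F, hF, hs⟩ := ih m h1 h4
        exact ⟨F, by rw [I_succ]; exact hF.trans (subset_insert _ _), hs⟩
      · have h5 := hB n
        obtain ⟨F, hF, hs⟩ := ih (m - A t α n) (by omega) (by omega)
        have h6 : A t α n ∉ F := fun h => hmem (hF h)
        refine ⟨insert (A t α n) F, by rw [I_succ]; exact insert_subset_insert _ hF, ?_⟩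
        rw [sum_insert h6, hs]
        ring

/-- the numbers which are not represented -/
noncomputable def mseq (t α : ℝ) (n : ℕ) : ℕ → ℤ
  | 0 => partialSum t α n + 1
  | 1 => A t α n - 1
  | k + 2 => mseq t α n k + A t α (n + k + 1)

theorem gap (ht : 0 < t) (hα : 3 / 2 ≤ α) (h2 : α + 1 ≤ α ^ 2) {n : ℕ}
    (hn : partialSum t α n + 2 ≤ A t α n) : ¬ Complete (seqSet t α) := by
  have hα0 : 0 < α := by linarith
  have hα1 : 1 ≤ α := by linarith
  have hS0 : ∀ k, 0 ≤ partialSum t α k := fun k => sum_nonneg (I_nonneg ht hα0 k)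
  have hA2 : 2 ≤ A t α n := by have := hS0 n; omega
  have hA2' : ∀ k, 2 ≤ A t α (n + k) := fun k => hA2.trans (A_mono ht hα1 (by omega))
  have hnm : ∀ k, A t α (n + k) ∉ I t α (n + k) := by
    intro k hk
    obtain ⟨i, hi, he⟩ := mem_image.1 hk
    rw [mem_range] at hi
    rcases Nat.eq_zero_or_pos k with rfl | hk0
    · rw [Nat.add_zero] at hk hi he
      have h3 : A t α n ≤ partialSum t α n :=
        single_le_sum (f := fun a => a) (I_nonneg ht hα0 n) hk
      omega
    · obtain ⟨j, rfl⟩ : ∃ j, k = j + 1 := ⟨k - 1, by omega⟩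
      have h3 := A_lt ht hα (hA2' j)
      have h4 : A t α i ≤ A t α (n + j) := A_mono ht hα1 (by omega)
      rw [show n + (j + 1) = n + j + 1 by ring] at he
      omega
  have hS : ∀ k, partialSum t α (n + k + 1) = partialSum t α (n + k) + A t α (n + k) := by
    intro k
    rw [pS_eq, I_succ, sum_insert (hnm k), ← pS_eq]
    ring
  -- the sum of two consecutive numbers
  have hsum : ∀ k, mseq t α n k + mseq t α n (k + 1) = partialSum t α (n + k + 1) := by
    intro k
    induction k with
    | zero =>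
      have := hS 0
      rw [Nat.add_zero] at this
      rw [Nat.add_zero, this]
      show partialSum t α n + 1 + (A t α n - 1) = _
      ring_nf
    | succ k ih =>
      have h3 : mseq t α n (k + 1 + 1) = mseq t α n k + A t α (n + k + 1) := rfl
      rw [h3]
      have h4 := hS (k + 1)
      rw [show n + (k + 1) + 1 = n + (k + 1) + 1 from rfl, show n + (k + 1) = n + k + 1 by ring] at h4
      rw [show n + (k + 1) + 1 = n + k + 1 + 1 by ring, h4]
      omega
  have hlt : ∀ k, mseq t α n k < A t α (n + k) ∧ mseq t α n (k + 1) < A t α (n + (k + 1)) := by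
    intro k
    induction k with
    | zero =>
      constructor
      · show partialSum t α n + 1 < _
        rw [Nat.add_zero]; omega
      · show A t α n - 1 < _
        have : A t α n ≤ A t α (n + (0 + 1)) := A_mono ht hα1 (by omega)
        omega
    | succ k ih =>
      refine ⟨ih.2, ?_⟩
      have h3 : mseq t α n (k + 1 + 1) = mseq t α n k + A t α (n + k + 1) := rfl
      rw [h3]
      have h4 := A_add ht hα0 h2 (n + k)
      rw [show n + (k + 1 + 1) = n + k + 2 by ring]
      have := ih.1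
      omega
  -- not represented
  have hnr : ∀ k, ∀ F : Finset ℤ, F ⊆ I t α (n + k) → ∑ a ∈ F, a ≠ mseq t α n k := by
    intro k
    induction k with
    | zero =>
      intro F hF hs
      have h3 : ∑ a ∈ F, a ≤ ∑ a ∈ I t α (n + 0), a :=
        sum_le_sum_of_subset_of_nonneg hF fun a ha _ => I_nonneg ht hα0 _ a ha
      rw [← pS_eq, hs] at h3
      have h4 : mseq t α n 0 = partialSum t α n + 1 := rfl
      rw [Nat.add_zero] at h3
      omega
    | succ k ih =>
      intro F hF hs
      have h3 : ∑ a ∈ I t α (n + (k + 1)) \ F, a = mseq t α n k := by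
        have h4 := sum_sdiff (f := fun a : ℤ => a) hF
        rw [← pS_eq (n + (k + 1)), show n + (k + 1) = n + k + 1 by ring, ← hsum k] at h4
        rw [show n + (k + 1) = n + k + 1 by ring]
        omega
      apply ih (I t α (n + (k + 1)) \ F) _ h3
      intro a ha
      have h5 : a ∈ I t α (n + k + 1) := (mem_sdiff.1 ha).1
      rw [I_succ, mem_insert] at h5
      rcases h5 with h5 | h5
      · exfalso
        have h6 : a ≤ ∑ a ∈ I t α (n + (k + 1)) \ F, a :=
          single_le_sum (f := fun a => a)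
            (fun b hb => I_nonneg ht hα0 _ b (mem_sdiff.1 hb).1) ha
        rw [h3] at h6
        have := (hlt k).1
        omega
      · exact h5
  rintro ⟨N, hN⟩
  obtain ⟨j, hj⟩ := A_unbounded ht (by linarith : 1 < α) N
  have hbig : N ≤ mseq t α n (j + 2) := by
    have h3 : mseq t α n (j + 2) = mseq t α n j + A t α (n + j + 1) := rfl
    have h4 : A t α j ≤ A t α (n + j + 1) := A_mono ht hα1 (by omega)
    have h5 : ∀ k, 0 ≤ mseq t α n k ∧ 0 ≤ mseq t α n (k + 1) := by
      intro k
      induction k with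
      | zero =>
        constructor
        · show 0 ≤ partialSum t α n + 1
          have := hS0 n; omega
        · show 0 ≤ A t α n - 1
          omega
      | succ k ih =>
        refine ⟨ih.2, ?_⟩
        have h6 : mseq t α n (k + 1 + 1) = mseq t α n k + A t α (n + k + 1) := rfl
        have h7 := A_nonneg ht hα0 (n + k + 1)
        have := ih.1
        omega
    have := (h5 j).1
    omega
  obtain ⟨F, hF, hs⟩ := hN _ hbig
  refine hnr (j + 2) F (subset_I ht hα1 hF ?_) hs
  rw [hs]
  exact (hlt (j + 2)).1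

end

/-- **The part `α ≥ φ` of `G`.** Let `t > 0`, `α ≥ (1 + √5) / 2`, and let `s_n` be the sum of the distinct
values among `⌊t α^0⌋, …, ⌊t α^(n-1)⌋`. Then `(t, α) ∈ G` if and only if `⌊t α^n⌋ ≤ 1 + s_n` for all
`n`, if and only if all nonnegative integers are sums of distinct terms. For `α < 2` this is the case
if and only if `⌊t⌋ ≤ 1` and `⌊t α^(n+1)⌋ ≤ 1 + s_{n+1}` for the finitely many `n` such that
`(2 - α) ⌊t α^n⌋ ≤ α`. -/
theorem result (t α : ℝ) (ht : 0 < t) (hα : (1 + √5) / 2 ≤ α) :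
    ((t, α) ∈ G ↔ ∀ n : ℕ, ⌊t * α ^ n⌋ ≤ 1 + partialSum t α n) ∧
    ((t, α) ∈ G ↔ ∀ m : ℤ, 0 ≤ m → ∃ F : Finset ℤ, (F : Set ℤ) ⊆ seqSet t α ∧ ∑ a ∈ F, a = m) ∧
    (α < 2 → {n : ℕ | (2 - α) * ⌊t * α ^ n⌋ ≤ α}.Finite ∧
      ((t, α) ∈ G ↔ ⌊t⌋ ≤ 1 ∧ ∀ n : ℕ, (2 - α) * ⌊t * α ^ n⌋ ≤ α →
        ⌊t * α ^ (n + 1)⌋ ≤ 1 + partialSum t α (n + 1))) := by
  have h5 : (2 : ℝ) ≤ √5 := by
    rw [show (2 : ℝ) = √(2 ^ 2) by simp]
    exact Real.sqrt_le_sqrt (by norm_num)
  have hα32 : 3 / 2 ≤ α := by linarith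
  have hα0 : 0 < α := by linarith
  have hα2 : α + 1 ≤ α ^ 2 := by
    have h6 : √5 ^ 2 = 5 := Real.sq_sqrt (by norm_num)
    nlinarith
  have hfwd : (t, α) ∈ G → ∀ n : ℕ, A t α n ≤ 1 + partialSum t α n := by
    intro hG n
    by_contra hcon
    push Not at hcon
    exact gap ht hα32 hα2 (by omega : partialSum t α n + 2 ≤ A t α n) hG.2.2
  have hrep : (∀ n : ℕ, A t α n ≤ 1 + partialSum t α n) → ∀ m : ℤ, 0 ≤ m →
      ∃ F : Finset ℤ, (F : Set ℤ) ⊆ seqSet t α ∧ ∑ a ∈ F, a = m := by
    intro hB m hm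
    obtain ⟨n, hn⟩ := A_unbounded ht (by linarith : 1 < α) m
    have h1 := hB n
    obtain ⟨F, hF, hs⟩ := represent ht hα0 hB n m hm (by omega)
    refine ⟨F, fun a ha => ?_, hs⟩
    obtain ⟨i, _, rfl⟩ := mem_image.1 (hF ha)
    exact ⟨i, rfl⟩
  have hback : (∀ m : ℤ, 0 ≤ m → ∃ F : Finset ℤ, (F : Set ℤ) ⊆ seqSet t α ∧ ∑ a ∈ F, a = m) →
      (t, α) ∈ G := fun h => ⟨ht, hα0, 0, fun m hm => h m hm⟩
  refine ⟨⟨hfwd, fun h => hback (hrep h)⟩, ⟨fun h => hrep (hfwd h), hback⟩, fun hlt => ⟨?_, ?_⟩⟩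
  · obtain ⟨n₀, hn₀⟩ := A_unbounded ht (by linarith : 1 < α) ⌈α / (2 - α)⌉
    refine (Set.finite_lt_nat n₀).subset fun n hn => ?_
    by_contra hcon
    simp only [Set.mem_ofPred_eq, not_lt] at hcon hn
    have h1 : A t α n₀ ≤ A t α n := A_mono ht (by linarith) hcon
    have h2 : α / (2 - α) ≤ (⌈α / (2 - α)⌉ : ℝ) := Int.le_ceil _
    have h3 : ((⌈α / (2 - α)⌉ : ℤ) : ℝ) < (A t α n : ℝ) := by exact_mod_cast hn₀.trans_le h1
    have h4 : α / (2 - α) < (A t α n : ℝ) := h2.trans_lt h3
    rw [div_lt_iff₀ (by linarith)] at h4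
    have h5 : (2 - α) * (A t α n : ℝ) ≤ α := hn
    linarith
  · constructor
    · intro h
      have h1 := hfwd h
      refine ⟨?_, fun n _ => h1 (n + 1)⟩
      have h2 := h1 0
      simpa [A, partialSum] using h2
    · rintro ⟨h0, h1⟩
      apply hback
      apply hrep
      intro n
      induction n with
      | zero => simpa [A, partialSum] using h0
      | succ n ih =>
        by_cases hc : (2 - α) * ⌊t * α ^ n⌋ ≤ α
        · exact h1 n hc
        · push Not at hc
          have h2 : A t α (n + 1) < 2 * A t α n := by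
            unfold A
            rw [Int.floor_lt]
            push_cast
            have h3 := Int.lt_floor_add_one (t * α ^ n)
            rw [pow_succ, ← mul_assoc]
            nlinarith
          have h4 : A t α n + partialSum t α n ≤ partialSum t α (n + 1) ∨
              A t α n ∈ I t α n := by
            by_cases hmem : A t α n ∈ I t α n
            · exact Or.inr hmem
            · left
              rw [pS_eq (n + 1), I_succ, sum_insert hmem, ← pS_eq]
          rcases h4 with h4 | h4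
          · omega
          · exfalso
            -- `a_n` is a repeated value, so that `a_n ≤ 1`, but `(2 - α) a_n > α`
            obtain ⟨i, hi, he⟩ := mem_image.1 h4
            rw [mem_range] at hi
            obtain ⟨j, rfl⟩ : ∃ j, n = j + 1 := ⟨n - 1, by omega⟩
            have h6 : A t α (j + 1) ≤ 1 := by
              by_contra hcon
              push Not at hcon
              have h7 : A t α i ≤ A t α j := A_mono ht (by linarith) (by omega)
              have h8 : 2 ≤ A t α j := by omega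
              have := A_lt ht hα32 h8
              omega
            have h9 : (A t α (j + 1) : ℝ) ≤ 1 := by exact_mod_cast h6
            have h10 : α < (2 - α) * (A t α (j + 1) : ℝ) := hc
            nlinarith

end Pool.Agent.Results.MP_0ff3a5_nt.AboveGoldenRatio
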