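import Mathlib
import Pool.Agent.D0H52.Pis

set_option autoImplicit false

/-!
# The set `G` does not contain the strip `1 < α < (1 + √5) / 2`

Let `n` be even and let `α > 1` be the root of `α ^ (n + 1) = 1 + α + ⋯ + α ^ (n - 1)` (a Pisot number;
`α = 1.534…` for `n = 4`; these numbers are smaller than the golden ratio `φ` and tend to `φ`). For
every `m ≤ n - 2` there is `t > 0` such that ALL the numbers `⌊t α ^ k⌋`, `k ≥ 0`, are divisible by `m`.
For `m = 2` all the terms are even and the sequence is not complete. So there are points outside `G`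
with `α < φ`, and `φ` is a limit of such `α`, even with all terms divisible by any given `m`.

Proof. `κ = m / (n - 1) < 1` satisfies `n κ = κ + m`, so the recurrence
`r_{k + n + 1} = r_k + ⋯ + r_{k + n - 1}` has solutions `r_k = κ + m s_k` with integers `s_k`. All the
roots of the characteristic polynomial but `α` lie in the open unit disc, hence `r_k = t α ^ k + o(1)`
and `⌊t α ^ k⌋ = m s_k` for all large `k`.
-/

namespace Pool.Agent.Results.MP_0ff3a5_nt.BelowGoldenRatio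

open Finset Real

/-- The set of the values `⌊t α^n⌋`, `n ≥ 0`. -/
def seqSet (t α : ℝ) : Set ℤ := {m | ∃ n : ℕ, m = ⌊t * α ^ n⌋}

/-- Every large integer is a sum of distinct elements of `A`. -/
def Complete (A : Set ℤ) : Prop :=
  ∃ N : ℤ, ∀ m ≥ N, ∃ F : Finset ℤ, (F : Set ℤ) ⊆ A ∧ ∑ a ∈ F, a = m

/-- The set `G` of the problem. -/
def G : Set (ℝ × ℝ) := {p | 0 < p.1 ∧ 0 < p.2 ∧ Complete (seqSet p.1 p.2)}

theorem not_complete {t α : ℝ} {m : ℕ} (hm : 2 ≤ m) (h : ∀ k : ℕ, (m : ℤ) ∣ ⌊t * α ^ k⌋) :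
    ¬ Complete (seqSet t α) := by
  rintro ⟨N, hN⟩
  obtain ⟨F, hF, hs⟩ := hN (m * |N| + 1) (by
    have h1 : (2 : ℤ) ≤ m := by exact_mod_cast hm
    have h2 := le_abs_self N
    have h3 := abs_nonneg N
    nlinarith)
  have h1 : (m : ℤ) ∣ ∑ a ∈ F, a := by
    refine dvd_sum fun a ha => ?_
    obtain ⟨k, hk⟩ := hF ha
    rw [hk]
    exact h k
  rw [hs] at h1
  have h2 : (m : ℤ) ∣ 1 := (Int.dvd_add_right (dvd_mul_right _ _)).1 h1
  have h3 := Int.le_of_dvd one_pos h2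
  have : (2 : ℤ) ≤ m := by exact_mod_cast hm
  omega

theorem at_phi (n : ℕ) : ∑ k ∈ range n, goldenRatio ^ k < goldenRatio ^ (n + 1) := by
  have h1 : (∑ k ∈ range n, goldenRatio ^ k) * (goldenRatio - 1) = goldenRatio ^ n - 1 :=
    geom_sum_mul _ n
  have h2 : goldenRatio ^ (n + 1) * (goldenRatio - 1) = goldenRatio ^ n := by
    have : goldenRatio ^ (n + 1) * (goldenRatio - 1) =
        goldenRatio ^ n * (goldenRatio ^ 2 - goldenRatio) := by ring
    rw [this, goldenRatio_sq]; ring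
  have h3 : 0 < goldenRatio - 1 := by linarith [one_lt_goldenRatio]
  by_contra hcon
  push Not at hcon
  have := mul_le_mul_of_nonneg_right hcon h3.le
  linarith

/-- a root in `(x, φ)` -/
theorem exists_root {n : ℕ} {x : ℝ} (hx : x < goldenRatio)
    (h : x ^ (n + 1) < ∑ k ∈ range n, x ^ k) :
    ∃ α, x < α ∧ α < goldenRatio ∧ α ^ (n + 1) = ∑ k ∈ range n, α ^ k := by
  have hc : ContinuousOn (fun y : ℝ => y ^ (n + 1) - ∑ k ∈ range n, y ^ k)
      (Set.Icc x goldenRatio) := by fun_prop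
  have h0 : (0 : ℝ) ∈ Set.Ioo (x ^ (n + 1) - ∑ k ∈ range n, x ^ k)
      (goldenRatio ^ (n + 1) - ∑ k ∈ range n, goldenRatio ^ k) :=
    ⟨by linarith, by linarith [at_phi n]⟩
  obtain ⟨α, hα, h1⟩ := intermediate_value_Ioo hx.le hc h0
  exact ⟨α, hα.1, hα.2, by simpa [sub_eq_zero] using h1⟩

/-- **Main result.** (1) Let `n` be even, `1 ≤ m ≤ n - 2`. There is `α` with `1 < α < φ` and
`α ^ (n + 1) = 1 + α + ⋯ + α ^ (n - 1)`, and for every such `α > 1` there is `t > 0` such that `m`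
divides all the numbers `⌊t α ^ k⌋`. (2) For all `m ≥ 2` and `ε > 0` there are `α` with
`φ - ε < α < φ` and `t > 0` such that `m` divides all the numbers `⌊t α ^ k⌋`; in particular
`(t, α)` is not in `G`. -/
theorem result :
    (∀ n m : ℕ, Even n → 1 ≤ m → m + 2 ≤ n →
      (∃ α : ℝ, 1 < α ∧ α < (1 + √5) / 2 ∧ α ^ (n + 1) = ∑ k ∈ range n, α ^ k) ∧
      ∀ α : ℝ, 1 < α → α ^ (n + 1) = ∑ k ∈ range n, α ^ k →
        ∃ t : ℝ, 0 < t ∧ ∀ k : ℕ, (m : ℤ) ∣ ⌊t * α ^ k⌋) ∧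
    ∀ m : ℕ, 2 ≤ m → ∀ ε : ℝ, 0 < ε → ∃ t α : ℝ, 0 < t ∧ 1 < α ∧ (1 + √5) / 2 - ε < α ∧
      α < (1 + √5) / 2 ∧ (∀ k : ℕ, (m : ℤ) ∣ ⌊t * α ^ k⌋) ∧ (t, α) ∉ G := by
  have hφ : goldenRatio = (1 + √5) / 2 := rfl
  rw [← hφ]
  refine ⟨fun n m hn hm hmn => ⟨?_, fun α hα h => ?_⟩, fun m hm ε hε => ?_⟩
  · obtain ⟨α, h1, h2, h3⟩ := exists_root (n := n) one_lt_goldenRatio (by
      simp only [one_pow, sum_const, card_range, nsmul_eq_mul, mul_one]
      have : 3 ≤ n := by omega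
      exact_mod_cast (by omega : 1 < n))
    exact ⟨α, h1, h2, h3⟩
  · exact Pool.Agent.D0H52.Pisot.main hn hm hmn hα h
  · set x : ℝ := max (goldenRatio - ε) ((1 + goldenRatio) / 2) with hx
    have hφ1 := one_lt_goldenRatio
    have hx1 : 1 < x := lt_of_lt_of_le (by linarith) (le_max_right _ _)
    have hxφ : x < goldenRatio := max_lt (by linarith) (by linarith)
    have hneg : 0 < 1 + x - x ^ 2 := by
      have h2 := goldenRatio_sq
      nlinarith
    obtain ⟨j, hj⟩ := pow_unbounded_of_one_lt (1 / (1 + x - x ^ 2)) hx1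
    obtain ⟨n, hn⟩ : ∃ n, n = 2 * (j + m + 1) := ⟨_, rfl⟩
    have hj' : 1 / (1 + x - x ^ 2) < x ^ n :=
      hj.trans_le (pow_le_pow_right₀ hx1.le (by omega))
    rw [div_lt_iff₀ hneg] at hj'
    have hlt : x ^ (n + 1) < ∑ k ∈ range n, x ^ k := by
      have h1 : (∑ k ∈ range n, x ^ k) * (x - 1) = x ^ n - 1 := geom_sum_mul x n
      by_contra hcon
      push Not at hcon
      have h2 := mul_le_mul_of_nonneg_right hcon (by linarith : 0 ≤ x - 1)
      rw [h1] at h2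
      have h3 : x ^ (n + 1) * (x - 1) = x ^ n * (x ^ 2 - x) := by ring
      rw [h3] at h2
      linarith
    obtain ⟨α, h1, h2, h3⟩ := exists_root hxφ hlt
    have hα1 : 1 < α := hx1.trans h1
    obtain ⟨t, ht, hdiv⟩ := Pool.Agent.D0H52.Pisot.main (n := n) (m := m) ⟨j + m + 1, by omega⟩
      (by omega) (by omega) hα1 h3
    exact ⟨t, α, ht, hα1, (le_max_left _ _).trans_lt h1, h2, hdiv,
      fun hG => not_complete hm hdiv hG.2.2⟩

end Pool.Agent.Results.MP_0ff3a5_nt.BelowGoldenRatio
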